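import Pool.Agent.Q56.CP.Fam

/-!
# Parshin's conjecture for the varieties generated by a bounded family: finitely many factors

Let `𝒱` be a class of smooth proper varieties over the field with `q = p ^ a` elements, closed under
products, and `𝒮` a (possibly infinite) family of members of `𝒱` of dimension at most `d` and with
sum of Betti numbers at most `b`, such that the Chow motives of all members of `𝒱` are direct
factors of finite sums of Tate twists of motives of products of members of `𝒮`. Let
`N = famBound q b d`. The following are equivalent:

* all pure theories vanish on all members of `𝒱`; these include the higher `K`-groups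
  `K_m(X)^(i)` with rational coefficients, `m > 0` (Parshin's conjecture), the numerically trivial
  cycles and the Tate classes modulo algebraic classes;
* rational and numerical equivalence coincide and the strong Tate conjecture holds for all members
  of `𝒱`;
* for all products of at most `N` members of `𝒮` the strong Tate conjecture holds and the
  homologically trivial self-correspondences are nilpotent.
-/

open Pool.Agent.H914 Pool.Agent.W492.BB Pool.Agent.TH133 Pool.Agent.Q56.CP

universe u v w

namespace Pool.Agent.Results.MP_27fd67_ag.BoundedlyManyFactors

/-- **The vanishing of the higher `K`-groups of all varieties generated by a bounded family over a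
finite field is decided by the products of boundedly many members.** -/
theorem result {k : Type u} [Field k] {𝒱 : VarClass k} (C : TheoryData.{u, v, 0} 𝒱 ℚ)
    [IsChowProj C] {K : Type w} [Field K] [CharZero K] (H : WeilTheoryData.{u, v, w} C K)
    [IsWeilProj H] (p a : ℕ) [Fact p.Prime] (ha : 0 < a) (Fr : ∀ X : 𝒱.Obj, X ⟶ X)
    (hFr : IsFrobTheory H Fr p a) (𝒮 : Set 𝒱.Obj) (b d : ℕ)
    (hb : ∀ X ∈ 𝒮, Module.finrank K (H.A X) ≤ b) (hd : ∀ X ∈ 𝒮, X.dim ≤ d)
    (hgen : ∀ Z : 𝒱.Obj, IsSumFactor C (allProds 𝒮) Z) :
    List.TFAE [∀ Z, Parshin C Fr (p ^ a) Z, NumTate H Fr (p ^ a),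
      ∀ W ∈ prods 𝒮 (famBound (p ^ a) b d), NilTate H Fr (p ^ a) W] :=
  fam_main hFr ha hb hd hgen

end Pool.Agent.Results.MP_27fd67_ag.BoundedlyManyFactors
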