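import Pool.Agent.Q59.TC.Sys

/-!
# Parshin's conjecture for `Z × C ^ n`, `Z` arbitrary and `C` a random Galois cover

Let `Z` be a smooth projective variety over the field `𝔽` with `q` elements, of characteristic `p`, and
let `G` be a finite group of order prime to `p`. Let `𝒮 → B` be a family of smooth projective curves of
genus `g ≥ 0` with disjoint sections `a_1, ..., a_r`, over a smooth geometrically connected scheme `B`
of finite type over `𝔽` which dominates the moduli space of `r`-pointed curves, and `𝒞 → 𝒮` a family of
Galois covers with the group `G`, ramified only over the `a_j`, with ramification indices which divide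
`N`. For a closed point `b` of `B` let `C` be the fibre of `𝒞` at `b`, a curve over the residue field of
`b`. We compare the rational higher algebraic K-theory of `Z × C ^ n` and of `Z` (over this field, or over
a finite extension), for all closed points `b` outside a set of density zero. The Tate conjecture
for `Z` is NOT supposed.

**Local systems and Frobenius tori.** The notation is that of `MP_0f183b_ag.RandomCoversTimesVarieties`:
`H ^ 1 (C)` is the direct sum of the `χ ⊗ V_χ`, where `χ` runs through the irreducible representations of `G`
and `V_χ` is the first cohomology of a local system `L_χ` on the pointed curve `S`; `LocalSystems`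
contains the numerical invariants of a finite family of such local systems, `ex` the local
exponents, residues modulo `N`. The letters are eigenvectors of the Frobenius and form bases of the `V_i`,
`π` are their eigenvalues, and `Λ` is the set of the eigenvalues of the Frobenius on the cohomology of
`Z`. For all closed points `b` outside a set of density zero the Frobenius torus of `b` contains a maximal
torus of the group `D` of the automorphisms of the `V_i` which preserve the pairings and have the
determinant one (Serre; Chi; monodromy: Boggi, Looijenga, Landesman, Litt, Sawin), with the trivial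
action on the cohomology of `Z`. So, if the product of `α ∈ Λ` and of the eigenvalues of the letters of
a word `w` is a power of `q` (a resonance), then `w` is annihilated by the cocharacters of the
maximal torus of `D` (`TorusInv`); therefore the slope of each letter can be replaced by the average
slope of its `V_i`, the slope of the determinant divided by the dimension (Chevalley, Weil). This gives
the slopes of `α` at the places given by the unit `t` (`Frobenius`).

**Pure theories.** Let `T ^ c` be a theory with an action of Chow correspondences on which the Frobenius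
acts as `q ^ c`, for instance `K_m (·) ⊗ ℚ` (the part of weight `c`) for one `m ≥ 1`, or the numerically
trivial cycles of codimension `c`. After an extension of the coefficients (to `ℂ`) the Chow motive of `C`
is the sum of Tate motives and of motives of rank one `M_x` of the letters `x`, as the Frobenius has
different eigenvalues on the `V_i`, and the projectors are algebraic correspondences. So
`T ^ c (Z × C ^ n)` is a sum of spaces `TX c w = T ^ c (h (Z) ⊗ M_w)` (up to Tate twists), where `M_w` is the
tensor product of the motives of the letters of the word `w`. Suppose that the homologically trivial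
self-correspondences of degree zero of `Z` are nilpotent (this is known if `Z` is dominated by a product of
curves, or finite dimensional in the sense of Kimura); then the same is true for `Z × C ^ n`, and a
power of the product of the `F - α π_w`, `α ∈ Λ`, annihilates `h (Z) ⊗ M_w`. If the letters of `w` form pairs
(a letter and its dual) and full blocks (all letters of a space `V_(μ j)` once), `M_w` is isomorphic, up to a
Tate twist, to the motive of rank one `M_u` which belongs to the character `u = exAll μ` of a Fermat
variety of degree `N` (Schoen; Brauer; Kimura); let `TF c u = T ^ c (h (Z) ⊗ M_u)`, a part of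
`T ^ c (Z × Y)`, `Y` a Fermat variety; `M_0` is the unit. If the line with the character `u` is
algebraic, `M_u` is a Tate motive. The family of the characters of algebraic lines on Fermat
varieties in characteristic `p` is `Admissible` (Shioda, Katsura, Aoki; Tate's theorem for Fermat
surfaces; specialization of algebraic cycles). These facts form the structure `PureTheory`.

**The theorem.** Let `T` be a pure theory.

(1) If `T` vanishes for the products of `Z` with Fermat varieties of degree `N` then it vanishes for
`Z × C ^ n`, for all `n`.

(2) If the covers are unramified and `T` vanishes for `Z`, then it vanishes for `Z × C ^ n`, for all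
`n`. So **Parshin's conjecture for `Z` implies Parshin's conjecture for `Z × C ^ n`, for almost all
unramified covers `C`.**

(3) The same is true for ramified covers if the cohomology of `Z` contains no nontrivial Weil numbers of
Fermat type (`IntegralSlopes`: an eigenvalue which has for all `t` the same slope at all places given by
`t` has the same integral slope at all places; for instance if `Z` is a point), and `N ≤ 54`, or
`N` is a `GoodDegree`, or a power of `p` is minus one modulo all odd primes dividing `N`.
-/

namespace Pool.Agent.Results.MP_27fd67_ag.RandomCoversTimesVarieties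

open Pool.Agent.Q59.GC Pool.Agent.Q59.TC Pool.Agent.Q59.TC.Sys

/-- The number `q` of elements of the field, the eigenvalues `π` of the letters, the eigenvalues `Λ` of
the Frobenius on the cohomology of `Z`; `HasSlope α t u` means that `α` has the slope `u` at all places
given by the unit `t`. If `α π_w` is a power of `q`, the word `w` is annihilated by the cocharacters of a
maximal torus of `D`, and its letters have the average slopes of their spaces. -/
structure Frobenius {N : ℕ} {I : Type} (S : LocalSystems N I) (p : ℕ) where
  q : ℂ
  π : Letter S.labels → ℂ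
  Λ : Finset ℂ
  HasSlope : ℂ → (ZMod N)ˣ → ℚ → Prop
  torus : ∀ (c s : ℕ) (w : Fin s → Letter S.labels), ∀ α ∈ Λ, α * ∏ k, π (w k) = q ^ c → TorusInv w
  slope : ∀ (c s : ℕ) (w : Fin s → Letter S.labels), ∀ α ∈ Λ, α * ∏ k, π (w k) = q ^ c →
    ∀ t : (ZMod N)ˣ,
      HasSlope α t (c - ∑ k, slope S.labels p (t : ZMod N) (w k).1 / S.labels.dim (w k).1)

/-- An eigenvalue of the cohomology of `Z` which has a slope `u t` at the places given by `t`, for
all `t`, has the same integral slope at all places. -/
def IntegralSlopes {N : ℕ} {I : Type} {S : LocalSystems N I} {p : ℕ} (Φ : Frobenius S p) : Prop :=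
  ∀ α ∈ Φ.Λ, ∀ u : (ZMod N)ˣ → ℚ, (∀ t, Φ.HasSlope α t (u t)) → ∃ m : ℤ, ∀ t, u t = m

/-- The letters of the word `w` form pairs (a letter and its dual) and full blocks of the spaces
`V_(μ j)`. -/
def IsDecomposed {N : ℕ} {I : Type} {S : LocalSystems N I} {s : ℕ} (w : Fin s → Letter S.labels)
    {l r : ℕ} (μ : Fin l → I)
    (e : (Σ j : Fin l, Fin (S.labels.dim (μ j))) ⊕ (Fin r × Fin 2) ≃ Fin s) : Prop :=
  (∀ j a, w (e (Sum.inl ⟨j, a⟩)) = ⟨μ j, a⟩) ∧
    ∀ k, w (e (Sum.inr (k, 1))) = dual (w (e (Sum.inr (k, 0))))

/-- A theory on which the Frobenius acts as `q ^ c`: the spaces `TX c s w` of the words `w` of length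
`s`, `TF c u` of the Fermat characters `u`, and `TZ c` of `Z`. A power of the product of the
`F - α π_w` is zero; the space of a decomposed word vanishes if those of the Fermat character vanish;
the spaces of the empty character and of algebraic lines vanish if those of `Z` vanish. -/
structure PureTheory {N : ℕ} {I : Type} {S : LocalSystems N I} {p : ℕ} (Φ : Frobenius S p)
    (A : ∀ M : ℕ, Multiset (ZMod M) → Prop) where
  TX : ℕ → ∀ s : ℕ, (Fin s → Letter S.labels) → Type
  TF : ℕ → Multiset (ZMod N) → Type
  TZ : ℕ → Type
  add : ∀ c s w, AddCommGroup (TX c s w)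
  mod : ∀ c s w, Module ℂ (TX c s w)
  frob : ∀ c s w, TX c s w →ₗ[ℂ] TX c s w
  scalar : ∀ c s w (x : TX c s w), frob c s w x = Φ.q ^ c • x
  nilpotent : ∀ c s w, ∃ m : ℕ, Polynomial.aeval (frob c s w)
    ((∏ α ∈ Φ.Λ, (Polynomial.X - Polynomial.C (α * ∏ k, Φ.π (w k)))) ^ m) = 0
  word : ∀ (c s : ℕ) (w : Fin s → Letter S.labels) (l r : ℕ) (μ : Fin l → I)
    (e : (Σ j : Fin l, Fin (S.labels.dim (μ j))) ⊕ (Fin r × Fin 2) ≃ Fin s),
    IsDecomposed w μ e → (∀ c', Subsingleton (TF c' (exAll S.labels μ))) → Subsingleton (TX c s w)
  empty : (∀ c, Subsingleton (TZ c)) → ∀ c, Subsingleton (TF c 0)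
  line : ∀ u : Multiset (ZMod N), A N u → (∀ c, Subsingleton (TZ c)) → ∀ c, Subsingleton (TF c u)

section

variable {N : ℕ} {I : Type} {S : LocalSystems N I} {p : ℕ} {Φ : Frobenius S p}
  {A : ∀ M : ℕ, Multiset (ZMod M) → Prop}

/-- the theory vanishes for `Z × C ^ n`, for all `n` -/
def PureTheory.VanishesX (T : PureTheory Φ A) : Prop := ∀ c s w, Subsingleton (T.TX c s w)

/-- the theory vanishes for `Z` -/
def PureTheory.VanishesZ (T : PureTheory Φ A) : Prop := ∀ c, Subsingleton (T.TZ c)

/-- the theory vanishes for the products of `Z` with Fermat varieties of degree `N` -/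
def PureTheory.VanishesF (T : PureTheory Φ A) : Prop := ∀ c u, Subsingleton (T.TF c u)

lemma vanish_of_scalar {V : Type} [AddCommGroup V] [Module ℂ V] (f : V →ₗ[ℂ] V) (a : ℂ)
    (hf : ∀ x, f x = a • x) (P : Polynomial ℂ) (hP : P.eval a ≠ 0) (h : Polynomial.aeval f P = 0) :
    Subsingleton V := by
  have h1 : ∀ x, (Polynomial.aeval f P) x = P.eval a • x := by
    intro x
    have hfx : f = algebraMap ℂ (Module.End ℂ V) a := by
      refine LinearMap.ext fun y => ?_
      rw [hf, Module.algebraMap_end_apply]
    rw [hfx, Polynomial.aeval_algebraMap_apply, Polynomial.coe_aeval_eq_eval,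
      Module.algebraMap_end_apply]
  refine subsingleton_of_forall_eq 0 fun x => ?_
  have h2 := h1 x
  rw [h, LinearMap.zero_apply] at h2
  exact (smul_eq_zero.mp h2.symm).resolve_left hP

/-- without a resonance the space of a word vanishes -/
lemma no_resonance (T : PureTheory Φ A) (c s : ℕ) (w : Fin s → Letter S.labels)
    (h : ∀ α ∈ Φ.Λ, α * ∏ k, Φ.π (w k) ≠ Φ.q ^ c) : Subsingleton (T.TX c s w) := by
  obtain ⟨m, hm⟩ := T.nilpotent c s w
  refine @vanish_of_scalar _ (T.add c s w) (T.mod c s w) (T.frob c s w) (Φ.q ^ c) (T.scalar c s w) _
    ?_ hm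
  rw [Polynomial.eval_pow, Polynomial.eval_prod]
  refine pow_ne_zero _ (Finset.prod_ne_zero_iff.mpr fun α hα => ?_)
  rw [Polynomial.eval_sub, Polynomial.eval_X, Polynomial.eval_C, sub_ne_zero]
  exact (h α hα).symm

end

/-- **Pure theories, in particular rational higher K-theory, of the products of an arbitrary variety
with powers of random covers of pointed curves over finite fields.** -/
theorem result (p : ℕ) (hp : p.Prime) (N : ℕ) [NeZero N] (hpN : p.Coprime N) (I : Type) [Fintype I]
    (S : LocalSystems N I) (Φ : Frobenius S p) (A : ∀ M : ℕ, Multiset (ZMod M) → Prop)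
    (hA : Admissible p A) (T : PureTheory Φ A) :
    (T.VanishesF → T.VanishesX) ∧
    ((∀ i, S.ex i = 0) → T.VanishesZ → T.VanishesX) ∧
    (IntegralSlopes Φ → (N ≤ 54 ∨ GoodDegree N ∨ ∃ j : ℕ, ∀ r : ℕ, r.Prime → r ∣ N → r ≠ 2 → r ∣ p ^ j + 1) →
      T.VanishesZ → T.VanishesX) := by
  classical
  -- the word of a resonance
  have key : ∀ (c s : ℕ) (w : Fin s → Letter S.labels), (∃ α ∈ Φ.Λ, α * ∏ k, Φ.π (w k) = Φ.q ^ c) →
      ∃ (l r : ℕ) (μ : Fin l → I)
        (e : (Σ j : Fin l, Fin (S.labels.dim (μ j))) ⊕ (Fin r × Fin 2) ≃ Fin s),
        IsDecomposed w μ e ∧ (IntegralSlopes Φ → (N ≤ 54 ∨ GoodDegree N ∨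
          ∃ j : ℕ, ∀ r : ℕ, r.Prime → r ∣ N → r ≠ 2 → r ∣ p ^ j + 1) → A N (exAll S.labels μ)) := by
    rintro c s w ⟨α, hα, hres⟩
    let F : (ZMod N)ˣ → ℚ → Submodule ℂ ℂ := fun t u => if Φ.HasSlope α t u then ⊤ else ⊥
    let x : (Fin s → Letter S.labels) → ℂ := fun v => if v = w then 1 else 0
    have hx : IsTateTensor p F (c : ℤ) x := by
      refine ⟨fun v hv => ?_, fun t v => ?_⟩
      · have h1 : v = w := by
          by_contra h
          exact hv (if_neg h)
        rw [h1]
        exact Φ.torus c s w α hα hres
      · by_cases h : v = w
        · have h1 := Φ.slope c s w α hα hres t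
          rw [← h] at h1
          have h2 : F t (((c : ℤ) : ℚ) - ∑ k, slope S.labels p (t : ZMod N) (v k).1 /
              S.labels.dim (v k).1) = ⊤ := by
            refine if_pos ?_
            push_cast
            exact h1
          rw [h2]
          exact Submodule.mem_top
        · have h1 : x v = 0 := if_neg h
          rw [h1]
          exact Submodule.zero_mem _
    have hw : x w ≠ 0 := by
      have : x w = 1 := if_pos rfl
      rw [this]
      exact one_ne_zero
    obtain ⟨l, r, μ, e, h1, h2, -, -, h5⟩ := main p hp N hpN I S ℂ F (c : ℤ) s x hx w hw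
    refine ⟨l, r, μ, e, ⟨h1, h2⟩, fun hInt hN => ?_⟩
    refine (h5 ?_).2.2 hN A hA
    intro u z hz hzu
    refine hInt α hα u fun t => ?_
    by_contra hcon
    have h6 : F t (u t) = ⊥ := if_neg hcon
    have h7 := hzu t
    rw [h6, Submodule.mem_bot] at h7
    exact hz h7
  refine ⟨fun hF c s w => ?_, fun hex hZ c s w => ?_, fun hInt hN hZ c s w => ?_⟩
  · by_cases h : ∃ α ∈ Φ.Λ, α * ∏ k, Φ.π (w k) = Φ.q ^ c
    · obtain ⟨l, r, μ, e, hd, -⟩ := key c s w h
      exact T.word c s w l r μ e hd fun c' => hF c' _
    · push Not at h
      exact no_resonance T c s w h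
  · by_cases h : ∃ α ∈ Φ.Λ, α * ∏ k, Φ.π (w k) = Φ.q ^ c
    · obtain ⟨l, r, μ, e, hd, -⟩ := key c s w h
      have h0 : exAll S.labels μ = 0 := Finset.sum_eq_zero fun j _ => hex (μ j)
      refine T.word c s w l r μ e hd fun c' => ?_
      rw [h0]
      exact T.empty hZ c'
    · push Not at h
      exact no_resonance T c s w h
  · by_cases h : ∃ α ∈ Φ.Λ, α * ∏ k, Φ.π (w k) = Φ.q ^ c
    · obtain ⟨l, r, μ, e, hd, hl⟩ := key c s w h
      exact T.word c s w l r μ e hd fun c' => T.line _ (hl hInt hN) hZ c'
    · push Not at h
      exact no_resonance T c s w h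

end Pool.Agent.Results.MP_27fd67_ag.RandomCoversTimesVarieties
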