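import Pool.Agent.Q56.FK.Main

/-!
# Parshin's conjecture for all varieties generated by curves is decided in weight two

Let `𝒞` be the class of the curves over the field with `q = p ^ a` elements, or any class with the
properties of it listed in `IsCurveClass`, and let `B` be one fixed curve in `𝒞` with `H^1(B) ≠ 0`.
The following are equivalent.

1. All pure theories vanish on all varieties whose Chow motive is generated by curves (products of
   curves, abelian varieties, and so on). Pure theories are, for example, the higher `K`-groups
   `K_m(X)^(i)` with rational coefficients, `m > 0` (Parshin's conjecture), and the numerically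
   trivial cycles.
2. All pure theories vanish in weight two on `X × X × X × B`, for all curves `X` in `𝒞`.
3. The Tate classes in `H^1(X) ⊗ H^1(X) ⊗ H^1(X) ⊗ H^1(B)`, of codimension two on
   `X × X × X × B`, are combinations of classes of cycles, for all `X` in `𝒞`.
4. The strong Tate conjecture holds in all codimensions for all varieties whose Chow motive is
   generated by curves.

(In (1) rational and numerical equivalence coincide, as the numerically trivial cycles form a pure
theory.)

The proof: the Tate classes in (3) come from the relations `z w = y r` between Weil numbers of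
weight one, where `r` is an eigenvalue of the Frobenius endomorphism on `H^1(B)`, and all
multiplicative relations between Weil numbers follow from these, by contractions over curves. The
curve `X` can be changed by Tate's theorem for the divisors on `X × Y`.
-/

open Pool.Agent.H914 Pool.Agent.H914.VarClass.Obj Pool.Agent.W492.BB Pool.Agent.TH133
  Pool.Agent.Q56.CP Pool.Agent.Q56.FK CategoryTheory

universe u v w

namespace Pool.Agent.Results.MP_27fd67_ag.WeightTwoCubesOfCurves

/-- **The vanishing of all pure theories in weight two on the products of the cubes of curves with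
one fixed curve implies their vanishing in all weights on all varieties generated by curves.** -/
theorem result {k : Type u} [Field k] {𝒱 : VarClass k} (C : TheoryData.{u, v, 0} 𝒱 ℚ)
    [IsChowProj C] {K : Type w} [Field K] [CharZero K] [IsAlgClosed K]
    (H : WeilTheoryData.{u, v, w} C K) [IsWeilProj H] (hH : ∀ X, AnticommOn (H.gr X 1)) (p a : ℕ)
    [Fact p.Prime] (ha : 0 < a) (Fr : ∀ X : 𝒱.Obj, X ⟶ X) (hFr : IsFrobTheory H Fr p a)
    (𝒞 : Set 𝒱.Obj) (hC : IsCurveClass H Fr (p ^ a) 𝒞) (B : 𝒱.Obj) (hB : B ∈ 𝒞)
    (hB1 : IsNonzero (H.gr B 1)) :
    List.TFAE [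
      ∀ Z, IsSumFactor C (allProds 𝒞) Z → ∀ r, ParshinIn C Fr (p ^ a) r Z,
      ∀ X ∈ 𝒞, ParshinIn C Fr (p ^ a) 2 (four X B),
      ∀ X ∈ 𝒞, TateIn H Fr (p ^ a) (four X B) 2 (oneOneOneOne H X B),
      ∀ Z, IsSumFactor C (allProds 𝒞) Z → ∀ j : ℕ,
        TateIn H Fr (p ^ a) Z j (H.gr Z (2 * j))] :=
  main hH hFr ha hC hB hB1

end Pool.Agent.Results.MP_27fd67_ag.WeightTwoCubesOfCurves
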